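import Pool.Agent.TH51.SeymourTrace.Blocks
import Pool.Agent.TH51.SeymourTrace.Walk

/-!
Problem MP_441ee1_co, Q1: rainbow cycles exist if the digraphs with `r i ≥ 2` fall into two
classes, each of which is a single digraph, or consists of digraphs invariant under one transitive
group, or consists of two digraphs, one with `r i ≤ 2` and the other one without digons.
-/

set_option autoImplicit false

namespace Pool.Agent.Results.MP_441ee1_co.TwoClasses

open Pool.Agent.TH51.SeymourTrace Pool.Agent.TH51.SeymourTrace.Blocks Finset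

variable {n t : ℕ}

theorem adj_diag (E : Fin t → Finset (Fin n × Fin n)) (k : Fin t) (u : Fin n) :
    adj E k u u = 1 := by simp [adj]

theorem adj_ne_zero (E : Fin t → Finset (Fin n × Fin n)) (k : Fin t) (u v : Fin n) :
    adj E k u v ≠ 0 ↔ u = v ∨ (u, v) ∈ E k := by
  unfold adj
  split_ifs with h
  · simp [h]
  · simp [h]

theorem adj_row (E : Fin t → Finset (Fin n × Fin n)) (r : Fin t → ℕ)
    (hloop : ∀ i, ∀ e ∈ E i, e.1 ≠ e.2)
    (hdeg : ∀ i v, r i ≤ ((E i).filter (fun e => e.1 = v)).card) (k : Fin t) (u : Fin n) :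
    r k + 1 ≤ rowSupp (adj E k) u := by
  classical
  set S := ((E k).filter (fun e => e.1 = u)).image Prod.snd with hS
  have hSc : S.card = ((E k).filter (fun e => e.1 = u)).card := by
    apply Finset.card_image_of_injOn
    intro e he e' he' h
    have h1 := (Finset.mem_filter.mp (Finset.mem_coe.mp he)).2
    have h2 := (Finset.mem_filter.mp (Finset.mem_coe.mp he')).2
    exact Prod.ext (h1.trans h2.symm) h
  have huS : u ∉ S := by
    intro h
    rw [hS, Finset.mem_image] at h
    obtain ⟨e, he, hu⟩ := h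
    rw [Finset.mem_filter] at he
    exact hloop k e he.1 (he.2.trans hu.symm)
  have hsub : insert u S ⊆ (Finset.univ : Finset (Fin n)).filter (fun v => adj E k u v ≠ 0) := by
    intro v hv
    rw [Finset.mem_filter]
    refine ⟨Finset.mem_univ _, ?_⟩
    rw [adj_ne_zero]
    rcases Finset.mem_insert.mp hv with h | h
    · exact Or.inl h.symm
    · right
      rw [hS, Finset.mem_image] at h
      obtain ⟨e, he, hu⟩ := h
      rw [Finset.mem_filter] at he
      have : e = (u, v) := Prod.ext he.2 hu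
      rw [← this]; exact he.1
  have h1 := Finset.card_le_card hsub
  rw [Finset.card_insert_of_notMem huS, hSc] at h1
  have h2 := hdeg k u
  unfold rowSupp
  omega

theorem block_list (E : Fin t → Finset (Fin n × Fin n)) (r : Fin t → ℕ) (c : Fin t → Fin 3)
    (a : Fin 3)
    (h : (∀ i j, c i = a → c j = a → i = j) ∨
      (∃ G : Subgroup (Equiv.Perm (Fin n)), (∀ u v : Fin n, ∃ g ∈ G, g u = v) ∧
        ∀ i, c i = a → ∀ g ∈ G, ∀ u v, (u, v) ∈ E i → (g u, g v) ∈ E i) ∨
      (∃ i j, i ≠ j ∧ (∀ k, c k = a ↔ k = i ∨ k = j) ∧ r i ≤ 2 ∧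
        ∀ u v, (u, v) ∈ E j → (v, u) ∉ E j)) :
    ∃ B : List (Fin t), B.Nodup ∧ (∀ k, k ∈ B ↔ c k = a) ∧
      ((B.map (fun k => (adj E k, r k))).length ≤ 1 ∨
        (∃ G : Subgroup (Equiv.Perm (Fin n)), (∀ u v : Fin n, ∃ g ∈ G, g u = v) ∧
          ∀ x ∈ B.map (fun k => (adj E k, r k)), Inv G x.1) ∨
        ∃ x y, B.map (fun k => (adj E k, r k)) = [x, y] ∧ x.2 ≤ 2 ∧
          ∀ i j, i ≠ j → y.1 i j ≠ 0 → y.1 j i = 0) := by
  classical
  rcases h with h | ⟨G, htr, hG⟩ | ⟨i, j, hij, hc, hri, hor⟩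
  · refine ⟨((Finset.univ : Finset (Fin t)).filter (fun k => c k = a)).toList,
      Finset.nodup_toList _, fun k => by simp, Or.inl ?_⟩
    rw [List.length_map, Finset.length_toList, Finset.card_le_one]
    intro i hi j hj
    rw [Finset.mem_filter] at hi hj
    exact h i j hi.2 hj.2
  · refine ⟨((Finset.univ : Finset (Fin t)).filter (fun k => c k = a)).toList,
      Finset.nodup_toList _, fun k => by simp, Or.inr (Or.inl ⟨G, htr, ?_⟩)⟩
    intro x hx
    obtain ⟨k, hk, rfl⟩ := List.mem_map.mp hx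
    have hk' : c k = a := by simpa using hk
    intro g hg u v
    have h1 : (g u = g v ∨ (g u, g v) ∈ E k) ↔ (u = v ∨ (u, v) ∈ E k) := by
      constructor
      · rintro (h | h)
        · exact Or.inl (g.injective h)
        · right
          have := hG k hk' g⁻¹ (G.inv_mem hg) _ _ h
          simpa using this
      · rintro (h | h)
        · exact Or.inl (by rw [h])
        · exact Or.inr (hG k hk' g hg _ _ h)
    show adj E k (g u) (g v) = adj E k u v
    unfold adj
    simp only [h1]
  · refine ⟨[i, j], by simp [hij], fun k => by simp [hc k], Or.inr (Or.inr ?_)⟩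
    refine ⟨(adj E i, r i), (adj E j, r j), rfl, hri, ?_⟩
    intro u v huv hne
    have h1 := (adj_ne_zero E j u v).mp hne
    have h2 : (u, v) ∈ E j := by
      rcases h1 with h1 | h1
      · exact absurd h1 huv
      · exact h1
    have h3 := hor u v h2
    show adj E j v u = 0
    unfold adj
    rw [if_neg]
    rintro (h | h)
    · exact huv h.symm
    · exact h3 h

theorem result (n t : ℕ) (hn : 0 < n) (E : Fin t → Finset (Fin n × Fin n)) (r : Fin t → ℕ)
    (hloop : ∀ i, ∀ e ∈ E i, e.1 ≠ e.2)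
    (hdeg : ∀ i, ∀ v : Fin n, r i ≤ ((E i).filter (fun e => e.1 = v)).card)
    (hsum : n ≤ ∑ i, r i)
    (c : Fin t → Fin 3)
    (hzero : ∀ i, c i = 0 → r i ≤ 1)
    (hclass : ∀ a : Fin 3, a ≠ 0 → (∀ i j, c i = a → c j = a → i = j) ∨
      (∃ G : Subgroup (Equiv.Perm (Fin n)), (∀ u v : Fin n, ∃ g ∈ G, g u = v) ∧
        ∀ i, c i = a → ∀ g ∈ G, ∀ u v, (u, v) ∈ E i → (g u, g v) ∈ E i) ∨
      (∃ i j, i ≠ j ∧ (∀ k, c k = a ↔ k = i ∨ k = j) ∧ r i ≤ 2 ∧
        ∀ u v, (u, v) ∈ E j → (v, u) ∉ E j)) :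
    ∃ k : ℕ, 2 ≤ k ∧ ∃ v : Fin k → Fin n, Function.Injective v ∧
      ∃ f : Fin k → Fin t, Function.Injective f ∧
        ∀ j : Fin k, (v j, v (finRotate k j)) ∈ E (f j) := by
  classical
  by_contra hcon
  have hno : ∀ m v f, 1 ≤ m → IsWalk E m v f → v 0 ≠ v m := by
    intro m v f hm hw hcl
    exact hcon (cycle_of_walk E hloop ⟨m, v, f, hm, hw, hcl⟩)
  rcases Nat.eq_zero_or_pos t with ht | ht
  · subst ht
    simp at hsum
    omega
  set x0 : Fin t := ⟨0, ht⟩
  obtain ⟨B1, hB1n, hB1, hb1⟩ := block_list E r c 1 (hclass 1 (by decide))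
  obtain ⟨B2, hB2n, hB2, hb2⟩ := block_list E r c 2 (hclass 2 (by decide))
  set O := ((Finset.univ : Finset (Fin t)).filter (fun k => c k = 0)).toList with hO
  have hOn : O.Nodup := Finset.nodup_toList _
  have hOm : ∀ k, k ∈ O ↔ c k = 0 := fun k => by simp [hO]
  have hOB1 : (O ++ B1).Nodup := by
    rw [List.nodup_append]
    refine ⟨hOn, hB1n, ?_⟩
    intro a ha b hb hab
    rw [hab, hOm, (hB1 b).mp hb] at ha
    exact absurd ha (by decide)
  have hall : ((O ++ B1) ++ B2).Nodup := by
    rw [List.nodup_append]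
    refine ⟨hOB1, hB2n, ?_⟩
    intro a ha b hb hab
    rw [hab, List.mem_append, hOm, hB1, (hB2 b).mp hb] at ha
    exact absurd ha (by decide)
  have hmem : ∀ k, k ∈ (O ++ B1) ++ B2 := by
    intro k
    rw [List.mem_append, List.mem_append, hOm, hB1, hB2]
    have : ∀ a : Fin 3, (a = 0 ∨ a = 1) ∨ a = 2 := by decide
    exact this (c k)
  set F : Fin t → Mat n × ℕ := fun k => (adj E k, r k) with hF
  have hmap : ∀ L : List (Fin t), (L.map F).map Prod.fst = L.map (adj E) := by
    intro L; simp [hF, Function.comp_def]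
  have hmap2 : ∀ L : List (Fin t), (L.map F).map Prod.snd = L.map r := by
    intro L; simp [hF, Function.comp_def]
  have hd : ∀ L : List (Fin t), ∀ x ∈ L.map F, ∀ i, x.1 i i ≠ 0 := by
    intro L x hx i
    obtain ⟨k, _, rfl⟩ := List.mem_map.mp hx
    show adj E k i i ≠ 0
    rw [adj_diag]; exact one_ne_zero
  have hr : ∀ L : List (Fin t), ∀ x ∈ L.map F, ∀ i, x.2 + 1 ≤ rowSupp x.1 i := by
    intro L x hx i
    obtain ⟨k, _, rfl⟩ := List.mem_map.mp hx
    exact adj_row E r hloop hdeg k i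
  set P := ((O ++ B1).map (adj E)).prod with hP
  set Q := (B2.map (adj E)).prod with hQ
  have hPd : ∀ i, P i i ≠ 0 := by
    apply listprod_diag
    intro M hM i
    obtain ⟨k, _, rfl⟩ := List.mem_map.mp hM
    rw [adj_diag]; exact one_ne_zero
  have hQd : ∀ i, Q i i ≠ 0 := by
    apply listprod_diag
    intro M hM i
    obtain ⟨k, _, rfl⟩ := List.mem_map.mp hM
    rw [adj_diag]; exact one_ne_zero
  have hPle : ∀ i, P i i ≤ 1 := diag_le_one E x0 hno _ hOB1
  have hQle : ∀ i, Q i i ≤ 1 := diag_le_one E x0 hno _ hB2n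
  have hle : ∀ i, (P * Q) i i ≤ 1 := by
    have h1 := diag_le_one E x0 hno _ hall
    rw [List.map_append, List.prod_append] at h1
    exact h1
  have a1 : ∀ i, 1 + ((O ++ B1).map r).sum ≤ rowSupp P i := by
    have h := arc_ones (B1.map F) (hd B1) (hr B1) hb1 (O.map F) (hd O) (hr O)
      (by
        intro x hx
        obtain ⟨k, hk, rfl⟩ := List.mem_map.mp hx
        exact hzero k ((hOm k).mp hk))
      (by rw [← List.map_append, hmap]; exact hPle)
    rw [← List.map_append, hmap, hmap2] at h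
    exact h
  have a2 : ∀ i, 1 + (B2.map r).sum ≤ rowSupp Q i := by
    have h := arc_ones (B2.map F) (hd B2) (hr B2) hb2 [] (by simp) (by simp) (by simp)
      (by rw [List.nil_append, hmap]; exact hQle)
    rw [List.nil_append, hmap, hmap2] at h
    exact h
  have hc := count P Q (fun u v h1 h2 => closed hPd hQd hle u v h1 h2)
  have b1 : n * (1 + ((O ++ B1).map r).sum) ≤ ∑ u, rowSupp P u := by
    have := Finset.sum_le_sum (fun (u : Fin n) (_ : u ∈ Finset.univ) => a1 u)
    simpa using this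
  have b2 : n * (1 + (B2.map r).sum) ≤ ∑ u, rowSupp Q u := by
    have := Finset.sum_le_sum (fun (u : Fin n) (_ : u ∈ Finset.univ) => a2 u)
    simpa using this
  have hs : ((O ++ B1).map r).sum + (B2.map r).sum = ∑ k, r k := by
    rw [← List.sum_append, ← List.map_append, ← List.sum_toFinset r hall]
    congr 1
    ext k
    simp only [List.mem_toFinset, Finset.mem_univ, iff_true]
    exact hmem k
  have h5 : n * (2 + ∑ k, r k) ≤ n * (n + 1) := by
    rw [← hs]
    nlinarith
  have h6 := Nat.le_of_mul_le_mul_left h5 hn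
  omega

end Pool.Agent.Results.MP_441ee1_co.TwoClasses
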